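import Pool.Agent.Helper62.DSH.StA

set_option autoImplicit false

open Set Filter Topology MeasureTheory
open Helper62.LH
open scoped ContDiff ENNReal

namespace Pool.Agent.Helper95.DSH

open Helper62.DSH

private lemma q2_eq {n j : ℕ} (t : Tn n j) : q2 t = (∑ I, t I ^ 2) / j.factorial := by
  unfold q2 ipt
  congr 1
  exact Finset.sum_congr rfl fun I _ => by ring

private lemma fpos (j : ℕ) : (0 : ℝ) < j.factorial := by
  exact_mod_cast Nat.factorial_pos j

private lemma q2_nonneg {n j : ℕ} (t : Tn n j) : 0 ≤ q2 t := by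
  rw [q2_eq]
  exact div_nonneg (Finset.sum_nonneg fun I _ => sq_nonneg _) (fpos j).le

private lemma q2_zero {n j : ℕ} (t : Tn n j) (h : q2 t = 0) : t = 0 := by
  rw [q2_eq, div_eq_zero_iff] at h
  rcases h with h | h
  · rw [Finset.sum_eq_zero_iff_of_nonneg (fun I _ => sq_nonneg _)] at h
    funext I
    exact pow_eq_zero_iff (two_ne_zero) |>.1 (h I (Finset.mem_univ I))
  · exact absurd h (fpos j).ne'

private lemma q2_le_of {n j : ℕ} (t : Tn n j) (X : ℝ) (h : ∑ I, t I ^ 2 ≤ X) :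
    q2 t ≤ X / j.factorial := by
  rw [q2_eq]
  exact div_le_div_of_nonneg_right h (fpos j).le

private lemma ipt_sq {n j : ℕ} (s t : Tn n j) : ipt s t ^ 2 ≤ q2 s * q2 t := by
  have h := Finset.sum_mul_sq_le_sq_mul_sq Finset.univ (fun I => s I) (fun I => t I)
  rw [q2_eq, q2_eq]
  unfold ipt
  rw [div_pow, div_mul_div_comm, ← sq]
  exact div_le_div_of_nonneg_right h (by positivity)

private lemma young {n j : ℕ} (s t : Tn n j) (r : ℝ) (hr : 0 < r) :
    q2 (s + t) ≤ (1 + r) * q2 s + (1 + 1 / r) * q2 t := by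
  have hp : ∀ a b : ℝ, (a + b) ^ 2 ≤ (1 + r) * a ^ 2 + (1 + 1 / r) * b ^ 2 := by
    intro a b
    have h1 : 0 ≤ (r * a - b) ^ 2 / r := div_nonneg (sq_nonneg _) hr.le
    have h2 : (r * a - b) ^ 2 / r = r * a ^ 2 - 2 * a * b + 1 / r * b ^ 2 := by
      field_simp
      ring
    rw [h2] at h1
    linarith [h1]
  have h1 : ∑ I, (s + t) I ^ 2 ≤ (1 + r) * (∑ I, s I ^ 2) + (1 + 1 / r) * ∑ I, t I ^ 2 := by
    rw [Finset.mul_sum, Finset.mul_sum, ← Finset.sum_add_distrib]
    exact Finset.sum_le_sum fun I _ => hp (s I) (t I)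
  have h2 := q2_le_of _ _ h1
  rw [q2_eq s, q2_eq t]
  rw [add_div, mul_div_assoc, mul_div_assoc] at h2
  exact h2

private lemma sumsq {n j M : ℕ} (c : Fin M → ℝ) (t : Fin M → Tn n j) :
    q2 (∑ i, c i • t i) ≤ (∑ i, c i ^ 2) * ∑ i, q2 (t i) := by
  have h1 : ∑ I, (∑ i, c i • t i) I ^ 2 ≤ (∑ i, c i ^ 2) * ∑ i, ∑ I, t i I ^ 2 := by
    rw [Finset.sum_comm, Finset.mul_sum]
    apply Finset.sum_le_sum
    intro I _
    have e : (∑ i, c i • t i) I = ∑ i, c i * t i I := by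
      rw [Finset.sum_apply]
      rfl
    rw [e]
    exact Finset.sum_mul_sq_le_sq_mul_sq Finset.univ (fun i => c i) (fun i => t i I)
  have h2 := q2_le_of _ _ h1
  have h3 : (∑ i, c i ^ 2) * ∑ i, q2 (t i) = ((∑ i, c i ^ 2) * ∑ i, ∑ I, t i I ^ 2) / j.factorial := by
    rw [mul_div_assoc, Finset.sum_div]
    congr 1
    exact Finset.sum_congr rfl fun i _ => q2_eq (t i)
  rw [h3]
  exact h2

private lemma ctsum {n j : ℕ} (t : Tn n (j + 1)) : ∑ a, q2 (ct a t) = (j + 1) * q2 t := by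
  have h1 : ∑ J, t J ^ 2 = ∑ a : Fin n, ∑ K : Fin j → Fin n, t (Fin.cons a K) ^ 2 := by
    rw [← Fintype.sum_prod_type']
    exact (Equiv.sum_comp (Fin.consEquiv (fun _ : Fin (j + 1) => Fin n)) (fun J => t J ^ 2)).symm
  have h2 : ∑ a, q2 (ct a t) = (∑ J, t J ^ 2) / j.factorial := by
    rw [h1, Finset.sum_div]
    exact Finset.sum_congr rfl fun a _ => q2_eq (ct a t)
  rw [h2, q2_eq, Nat.factorial_succ]
  push_cast
  have h3 := (fpos j).ne'
  have h4 : (j : ℝ) + 1 ≠ 0 := by positivity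
  field_simp

private lemma wdsum {n j : ℕ} (c : Fin n → ℝ) (t : Tn n j) :
    q2 (wd (fun a => c a • t)) ≤ (j + 1) * (∑ a, c a ^ 2) * q2 t := by
  have h1 : ∑ J, (wd (fun a => c a • t)) J ^ 2 ≤
      (j + 1) * ((j + 1) * ((∑ a, c a ^ 2) * ∑ K, t K ^ 2)) := by
    have hJ : ∀ J : Fin (j + 1) → Fin n, (wd (fun a => c a • t)) J ^ 2 ≤
        (j + 1) * ∑ d : Fin (j + 1), c (J d) ^ 2 * t (fun i => J (d.succAbove i)) ^ 2 := by
      intro J
      have h := Finset.sum_mul_sq_le_sq_mul_sq Finset.univ (fun d : Fin (j + 1) => (-1 : ℝ) ^ (d : ℕ))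
        (fun d : Fin (j + 1) => c (J d) * t (fun i => J (d.succAbove i)))
      have e1 : ∑ d : Fin (j + 1), ((-1 : ℝ) ^ (d : ℕ)) ^ 2 = (j : ℝ) + 1 := by
        have : ∀ d : Fin (j + 1), ((-1 : ℝ) ^ (d : ℕ)) ^ 2 = 1 := by
          intro d
          rw [← pow_mul, mul_comm, pow_mul]
          norm_num
        rw [Finset.sum_congr rfl fun d _ => this d, Finset.sum_const, Finset.card_univ,
          Fintype.card_fin]
        simp
      rw [e1] at h
      have e2 : ∑ d : Fin (j + 1), (c (J d) * t (fun i => J (d.succAbove i))) ^ 2 =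
          ∑ d : Fin (j + 1), c (J d) ^ 2 * t (fun i => J (d.succAbove i)) ^ 2 :=
        Finset.sum_congr rfl fun d _ => mul_pow _ _ _
      rw [e2] at h
      exact h
    have hd : ∀ d : Fin (j + 1), ∑ J : Fin (j + 1) → Fin n,
        c (J d) ^ 2 * t (fun i => J (d.succAbove i)) ^ 2 = (∑ a, c a ^ 2) * ∑ K, t K ^ 2 := by
      intro d
      rw [← Equiv.sum_comp (Fin.insertNthEquiv (fun _ : Fin (j + 1) => Fin n) d)
        (fun J => c (J d) ^ 2 * t (fun i => J (d.succAbove i)) ^ 2)]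
      rw [Fintype.sum_prod_type, Finset.sum_mul]
      apply Finset.sum_congr rfl
      intro a _
      rw [Finset.mul_sum]
      apply Finset.sum_congr rfl
      intro K _
      have e3 : (Fin.insertNthEquiv (fun _ : Fin (j + 1) => Fin n) d) (a, K) d = a := by
        simp [Fin.insertNthEquiv]
      have e4 : (fun i => (Fin.insertNthEquiv (fun _ : Fin (j + 1) => Fin n) d) (a, K)
          (d.succAbove i)) = K := by
        funext i
        simp [Fin.insertNthEquiv]
      rw [e3, e4]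
    calc ∑ J, (wd (fun a => c a • t)) J ^ 2
        ≤ ∑ J : Fin (j + 1) → Fin n, (j + 1) *
          ∑ d : Fin (j + 1), c (J d) ^ 2 * t (fun i => J (d.succAbove i)) ^ 2 :=
          Finset.sum_le_sum fun J _ => hJ J
      _ = (j + 1) * ∑ d : Fin (j + 1), ∑ J : Fin (j + 1) → Fin n,
          c (J d) ^ 2 * t (fun i => J (d.succAbove i)) ^ 2 := by
          rw [← Finset.mul_sum, Finset.sum_comm]
      _ = (j + 1) * ((j + 1) * ((∑ a, c a ^ 2) * ∑ K, t K ^ 2)) := by
          rw [Finset.sum_congr rfl fun d _ => hd d, Finset.sum_const, Finset.card_univ,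
            Fintype.card_fin, nsmul_eq_mul]
          push_cast
          ring
  have h2 := q2_le_of _ _ h1
  rw [q2_eq t]
  rw [Nat.factorial_succ] at h2
  push_cast at h2
  have h3 := (fpos j).ne'
  have h4 : (j : ℝ) + 1 ≠ 0 := by positivity
  have h5 : ((j : ℝ) + 1) * (((j : ℝ) + 1) * ((∑ a, c a ^ 2) * ∑ K, t K ^ 2)) /
      (((j : ℝ) + 1) * (j.factorial : ℝ)) =
      ((j : ℝ) + 1) * (∑ a, c a ^ 2) * ((∑ K, t K ^ 2) / j.factorial) := by
    field_simp
  rw [h5] at h2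
  exact h2

theorem hNrm : TNrm := by
  intro n j
  refine ⟨fun t => ⟨q2_nonneg t, q2_zero t, q2_eq t⟩, ?_, ?_, young, fun M => sumsq, wdsum, ?_,
    ctsum⟩
  · intro c t
    rw [q2_eq, q2_eq, ← mul_div_assoc, Finset.mul_sum]
    congr 1
    exact Finset.sum_congr rfl fun I _ => mul_pow _ _ _
  · intro s t
    rw [← Real.sqrt_mul (q2_nonneg s), ← Real.sqrt_sq_eq_abs]
    exact Real.sqrt_le_sqrt (ipt_sq s t)
  · intro c t
    calc q2 (∑ a, c a • ct a t) ≤ (∑ i, c i ^ 2) * ∑ i, q2 (ct i t) := sumsq c fun a => ct a t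
      _ = (j + 1) * (∑ a, c a ^ 2) * q2 t := by rw [ctsum]; ring

end Pool.Agent.Helper95.DSH
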